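import Pool.Agent.W37.SG.Stm2

set_option autoImplicit false

namespace Pool.Agent.W481.SG

open Pool.Agent.W37.SG

variable {p : ℕ}

theorem agr_map {g : Pm p} (hg : IsTri p g) {k : ℕ} {x y : ℕ → ZMod p} (h : Agr p k x y) :
    Agr p k (g x) (g y) := by
  intro j hj
  have h1 := hg j x y (fun i hi => h i (hi.trans hj))
  have h2 := h j hj
  rw [h2] at h1
  exact sub_left_injective h1

theorem agr_symm {k : ℕ} {x y : ℕ → ZMod p} (h : Agr p k x y) : Agr p k y x :=
  fun j hj => (h j hj).symm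

theorem agr_trans {k : ℕ} {x y z : ℕ → ZMod p} (h : Agr p k x y) (h' : Agr p k y z) :
    Agr p k x z := fun j hj => (h j hj).trans (h' j hj)

theorem agr_ext (k : ℕ) (x : ℕ → ZMod p) : Agr p k (ext0 p k (fun i => x i)) x := by
  intro j hj
  unfold ext0
  rw [dif_pos hj]

theorem inv_app (g : Pm p) (x : ℕ → ZMod p) : g⁻¹ (g x) = x := Equiv.symm_apply_apply g x

theorem app_inv (g : Pm p) (x : ℕ → ZMod p) : g (g⁻¹ x) = x := Equiv.apply_symm_apply g x

theorem pow_lab {g : Pm p} (hg : IsTri p g) {k : ℕ} {x0 : ℕ → ZMod p} (h : Agr p k (g x0) x0)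
    (m : ℕ) {x : ℕ → ZMod p} (hx : Agr p k x x0) :
    Agr p k ((g ^ m) x) x0 ∧ (g ^ m) x k = x k + m * (g x0 k - x0 k) := by
  induction m with
  | zero => simpa using hx
  | succ m ih =>
    obtain ⟨h1, h2⟩ := ih
    rw [pow_succ']
    refine ⟨agr_trans (agr_map hg h1) h, ?_⟩
    have h3 : g ((g ^ m) x) k - (g ^ m) x k = g x0 k - x0 k := hg k _ _ h1
    show g ((g ^ m) x) k = _
    rw [sub_eq_iff_eq_add] at h3
    rw [h3, h2]
    push_cast
    ring

theorem trans : S_TRANS := by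
  intro hD4 p _ Q hQ htau k
  have hp : p ≠ 0 := (Fact.out : p.Prime).ne_zero
  have : NeZero p := ⟨hp⟩
  induction k with
  | zero => exact fun x y => ⟨1, Q.one_mem, fun j hj => absurd hj (Nat.not_lt_zero _)⟩
  | succ k ih =>
  by_cases hc : ∃ (x0 : ℕ → ZMod p), ∃ g ∈ Q, Agr p k (g x0) x0 ∧ g x0 k ≠ x0 k
  · obtain ⟨x0, g, hg, hgx, hne⟩ := hc
    intro x y
    obtain ⟨h1, hh1, e1⟩ := ih x x0
    obtain ⟨h2, hh2, e2⟩ := ih x0 y
    set c := g x0 k - x0 k with hcdef
    have hc0 : c ≠ 0 := sub_ne_zero.mpr hne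
    set t := y k - (h2 x0 k - x0 k) - h1 x k with ht
    obtain ⟨m, hm⟩ : ∃ m : ℕ, (m : ZMod p) = t / c := ⟨(t / c).val, ZMod.natCast_zmod_val _⟩
    refine ⟨h2 * (g ^ m * h1), Q.mul_mem hh2 (Q.mul_mem (Q.pow_mem hg m) hh1), ?_⟩
    obtain ⟨p1, p2⟩ := pow_lab (hQ g hg) hgx m e1
    have e3 : Agr p k (h2 ((g ^ m) (h1 x))) y := agr_trans (agr_map (hQ h2 hh2) p1) e2
    intro j hj
    rcases Nat.lt_succ_iff_lt_or_eq.mp hj with hj | rfl
    · exact e3 j hj
    · have h3 := hQ h2 hh2 j _ _ p1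
      show h2 ((g ^ m) (h1 x)) j = y j
      rw [sub_eq_iff_eq_add] at h3
      rw [h3, p2, hm, ← hcdef, div_mul_cancel₀ _ hc0, ht]
      ring
  · exfalso
    push Not at hc
    obtain ⟨g, hg, hgt⟩ := htau k
    apply hgt
    choose G hGQ hG using fun w : Fin k → ZMod p => ih 0 (ext0 p k w)
    have hgi := hQ g hg
    set π : (Fin k → ZMod p) → (Fin k → ZMod p) := fun w i => g (ext0 p k w) i with hπ
    have hinj : Function.Injective π := by
      intro w v hwv
      have h1 : Agr p k (g (ext0 p k w)) (g (ext0 p k v)) := by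
        intro j hj
        exact congrFun hwv ⟨j, hj⟩
      have h2 := agr_map ((hD4 p g g hgi hgi).2.1) h1
      rw [inv_app, inv_app] at h2
      funext i
      have h3 := h2 i i.2
      unfold ext0 at h3
      simpa using h3
    have hlab : ∀ w, g (ext0 p k w) k - ext0 p k w k = G (π w) 0 k - G w 0 k := by
      intro w
      -- `g (G w 0)` and `G (π w) 0` agree on the first `k` coordinates
      have a1 : Agr p k (g (G w 0)) (G (π w) 0) := by
        refine agr_trans (agr_map hgi (hG w)) (agr_symm ?_)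
        exact agr_trans (hG (π w)) (agr_ext k _)
      have hinvtri : IsTri p (G (π w))⁻¹ := (hD4 p _ _ (hQ _ (hGQ (π w))) (hQ _ (hGQ (π w)))).2.1
      have a2 : Agr p k ((G (π w))⁻¹ (g (G w 0))) 0 := by
        have := agr_map hinvtri a1
        rwa [inv_app] at this
      have hmem : (G (π w))⁻¹ * (g * G w) ∈ Q := Q.mul_mem (Q.inv_mem (hGQ _)) (Q.mul_mem hg (hGQ w))
      have a3 : ((G (π w))⁻¹ * (g * G w)) 0 k = (0 : ℕ → ZMod p) k := hc 0 _ hmem a2
      have a4 : Agr p (k + 1) ((G (π w))⁻¹ (g (G w 0))) 0 := by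
        intro j hj
        rcases Nat.lt_succ_iff_lt_or_eq.mp hj with hj | rfl
        · exact a2 j hj
        · exact a3
      have a5 := agr_map (hQ _ (hGQ (π w))) a4 k (Nat.lt_succ_self k)
      rw [app_inv] at a5
      have a6 : g (G w 0) k - G w 0 k = g (ext0 p k w) k - ext0 p k w k := hgi k _ _ (hG w)
      rw [← a6, a5]
    unfold tau
    rw [Finset.sum_congr rfl fun w _ => hlab w, Finset.sum_sub_distrib]
    have hb : Function.Bijective π := Finite.injective_iff_bijective.mp hinj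
    rw [hb.sum_comp (fun w => G w 0 k), sub_self]

/-- the name asked for -/
theorem main : S_TRANS := trans

end Pool.Agent.W481.SG

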